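import Mathlib
import Pool.Agent.H3.WHSharp

set_option autoImplicit false

open Pool.Agent.H3.WH

namespace Pool.Agent.Results.MP_5b99fd_an.AlphaGtOne

/-- For every `n` and every `α > 1` the best constant `C(α,n)` in
`∫ (1+|x|²)^α |∇u|² ≥ c ∫ (1+|x|²)^(α-1) u²` (`u ∈ C_c^∞(ℝⁿ)`) is `(n+2α-2)²/4` if `α ≤ (n+2)/2`
and `2n(α-1)` if `α > (n+2)/2`. -/
theorem result : ∀ (n : ℕ) (α : ℝ), 1 < α →
    IsGreatest {c : ℝ | Hardy n α c}
      (if α ≤ ((n : ℝ) + 2) / 2 then ((n : ℝ) + 2 * α - 2) ^ 2 / 4 else 2 * n * (α - 1)) :=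
  fun n α hα => main n α hα

end Pool.Agent.Results.MP_5b99fd_an.AlphaGtOne
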